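import Pool.Agent.H72.PER.Targets

open Module Filter

namespace Pool.Agent.H34.PER.GA

open Pool.Agent.H72.HR
open Pool.Agent.H72.SBP (MvK)
open Pool.Agent.H72.PER

/-- weighted form from the semistable form, arithmetic part -/
private theorem weigh {p q v u w R : ℕ} (hu : 0 < u) (h : v * u + (v + u) * w ≤ (v + u) * R)
    (hqp : q * u ≤ p * v) : q * u + (p + q) * w ≤ (p + q) * R := by
  have h0 : 0 < v + u := by omega
  have hwR : w ≤ R := by
    refine Nat.le_of_mul_le_mul_left (c := v + u) ?_ h0
    omega
  obtain ⟨r, rfl⟩ := Nat.exists_eq_add_of_le hwR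
  rw [mul_add] at h
  have h1 : v * u ≤ (v + u) * r := by omega
  have h2 : q * u ≤ (p + q) * r := by
    refine Nat.le_of_mul_le_mul_left (c := v + u) ?_ h0
    have h3 : q * (v + u) ≤ (p + q) * v := by
      rw [mul_add, add_mul]
      omega
    calc (v + u) * (q * u) = (q * (v + u)) * u := by ring
      _ ≤ ((p + q) * v) * u := Nat.mul_le_mul_right _ h3
      _ = (p + q) * (v * u) := by ring
      _ ≤ (p + q) * ((v + u) * r) := Nat.mul_le_mul_left _ h1
      _ = (v + u) * ((p + q) * r) := by ring
  rw [mul_add]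
  omega

/-- minimal ratio over a bounded set of pairs -/
private theorem exists_min_ratio (T : Set (ℕ × ℕ)) (hT : T.Nonempty) (M : ℕ)
    (hM : ∀ t ∈ T, t.1 ≤ M ∧ t.2 ≤ M) (hpos : ∀ t ∈ T, 0 < t.2) :
    ∃ t ∈ T, ∀ s ∈ T, t.1 * s.2 ≤ s.1 * t.2 := by
  have hfin : T.Finite := by
    refine Set.Finite.subset (Set.finite_Iic (M, M)) ?_
    intro t ht
    exact ⟨(hM t ht).1, (hM t ht).2⟩
  obtain ⟨t, ht, hmin⟩ := Set.exists_min_image T (fun t => (t.1 : ℚ) / (t.2 : ℚ)) hfin hT
  refine ⟨t, ht, fun s hs => ?_⟩
  have h1 : (t.1 : ℚ) / (t.2 : ℚ) ≤ (s.1 : ℚ) / (s.2 : ℚ) := hmin s hs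
  have ht2 : (0 : ℚ) < (t.2 : ℚ) := by exact_mod_cast hpos t ht
  have hs2 : (0 : ℚ) < (s.2 : ℚ) := by exact_mod_cast hpos s hs
  rw [div_le_div_iff₀ ht2 hs2] at h1
  exact_mod_cast h1

/-- intervals all of whose quotients have large slope -/
theorem pf_GA (h1 : T_EXA) (h : T_ADD) : T_GA := by
  intro K F _ _ _ n x s p q hp hq hI l c A V' V U' U a b hV hU hVU' hVU
  induction hb : b using Nat.strong_induction_on generalizing V U a b with
  | _ m ih =>
    subst hb
    intro ha hbb hs hyp
    obtain ⟨hfin, -, -, -, -, -⟩ := h1 K F n l c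
    obtain ⟨hfinU, -, -, -, -, -⟩ := h1 K F n c l
    rcases Nat.eq_zero_or_pos b with hb0 | hbpos
    · -- trivial case
      rw [hb0, mul_zero, zero_add]
      refine Nat.mul_le_mul_left _ ?_
      rw [← hfinU U']
      exact Submodule.finrank_mono le_sup_right
    · -- minimal ratio
      let T : Set (ℕ × ℕ) := {t | ∃ (V2 : Submodule K (Fin l → K)) (U2 : Submodule K (Fin c → K)),
        V' ≤ V2 ∧ V2 ≤ V ∧ U' ≤ U2 ∧ U2 ≤ U ∧ Into Set.univ A V2 U2 ∧
        finrank K V = finrank K V2 + t.1 ∧ finrank K U = finrank K U2 + t.2 ∧ 0 < t.2}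
      have hTne : T.Nonempty := ⟨(a, b), V', U', le_rfl, hV, le_rfl, hU, hVU', ha, hbb, hbpos⟩
      obtain ⟨⟨v, u⟩, hvu, hmin⟩ := exists_min_ratio T hTne (finrank K V + finrank K U)
        (by
          rintro ⟨t1, t2⟩ ⟨V2, U2, -, -, -, -, -, e1, e2, -⟩
          simp only at e1 e2 ⊢
          omega)
        (by
          rintro ⟨t1, t2⟩ ⟨V2, U2, -, -, -, -, -, e1, e2, e3⟩
          exact e3)
      obtain ⟨V2, U2, hV'2, hV2, hU'2, hU2, hVU2, ev, eu, hu⟩ := hvu
      simp only at ev eu hu
      -- the top interval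
      have hqp : q * u ≤ p * v := by
        have := hyp V2 U2 hV'2 hV2 hU'2 hU2 hVU2
        rw [ev, eu, Nat.add_sub_cancel_left, Nat.add_sub_cancel_left] at this
        exact this
      have hle1 : finrank K V' ≤ finrank K V2 := Submodule.finrank_mono hV'2
      have hle2 : finrank K U' ≤ finrank K U2 := Submodule.finrank_mono hU'2
      have htop := hI l c A V2 V U2 U v u hV2 hU2 hVU2 hVU ev eu (by omega) (by
        intro V3 U3 hV23 hV3 hU23 hU3 hVU3
        have g1 : finrank K V2 ≤ finrank K V3 := Submodule.finrank_mono hV23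
        have g2 : finrank K U2 ≤ finrank K U3 := Submodule.finrank_mono hU23
        have g3 : finrank K V3 ≤ finrank K V := Submodule.finrank_mono hV3
        have g4 : finrank K U3 ≤ finrank K U := Submodule.finrank_mono hU3
        obtain ⟨e, he⟩ := Nat.exists_eq_add_of_le g1
        obtain ⟨d, hd⟩ := Nat.exists_eq_add_of_le g2
        obtain ⟨e', he'⟩ := Nat.exists_eq_add_of_le g3
        obtain ⟨d', hd'⟩ := Nat.exists_eq_add_of_le g4
        have f1 : finrank K V3 - finrank K V2 = e := by omega
        have f2 : finrank K U3 - finrank K U2 = d := by omega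
        have f3 : v = e + e' := by omega
        have f4 : u = d + d' := by omega
        rw [f1, f2]
        rcases Nat.eq_zero_or_pos d' with hd0 | hd0
        · have f5 : u = d := by omega
          rw [← f5, mul_comm]
          exact Nat.mul_le_mul_right _ (by omega)
        · have := hmin (e', d') ⟨V3, U3, hV'2.trans hV23, hV3, hU'2.trans hU23, hU3, hVU3, he', hd',
            hd0⟩
          simp only at this
          rw [f3, f4] at this ⊢
          have k1 : (e + e') * d' = e * d' + e' * d' := by ring
          have k2 : e' * (d + d') = e' * d + e' * d' := by ring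
          have k3 : (d + d') * e = d * e + e * d' := by ring
          have k4 : (e + e') * d = d * e + e' * d := by ring
          omega)
      have htop' := weigh hu htop hqp
      -- the bottom interval
      obtain ⟨a2, ha2⟩ := Nat.exists_eq_add_of_le hle1
      obtain ⟨b2, hb2⟩ := Nat.exists_eq_add_of_le hle2
      have hbot := ih b2 (by omega) V2 U2 a2 b2 hV'2 hU'2 hVU2 rfl ha2 hb2 (by omega) (by
        intro V4 U4 hV'4 hV4 hU'4 hU4 hVU4
        have g1 : finrank K V4 ≤ finrank K V2 := Submodule.finrank_mono hV4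
        have g2 : finrank K U4 ≤ finrank K U2 := Submodule.finrank_mono hU4
        obtain ⟨e, he⟩ := Nat.exists_eq_add_of_le g1
        obtain ⟨d, hd⟩ := Nat.exists_eq_add_of_le g2
        have f1 : finrank K V2 - finrank K V4 = e := by omega
        have f2 : finrank K U2 - finrank K U4 = d := by omega
        rw [f1, f2]
        have := hmin (v + e, u + d) ⟨V4, U4, hV'4, hV4.trans hV2, hU'4, hU4.trans hU2, hVU4,
          by simp only; omega, by simp only; omega, by simp only; omega⟩
        simp only at this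
        have k0 : v * d ≤ e * u := by
          have k1 : v * (u + d) = v * u + v * d := by ring
          have k2 : (v + e) * u = v * u + e * u := by ring
          omega
        refine Nat.le_of_mul_le_mul_left (c := u) ?_ hu
        calc u * (q * d) = (q * u) * d := by ring
          _ ≤ (p * v) * d := Nat.mul_le_mul_right _ hqp
          _ = p * (v * d) := by ring
          _ ≤ p * (e * u) := Nat.mul_le_mul_left _ k0
          _ = u * (p * e) := by ring)
      have hadd := (h K F n l c x A).1 V2 V U' U2 hV2 hU'2 hVU2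
      have hE := Nat.mul_le_mul_left (p + q) hadd
      rw [mul_add, mul_add] at hE
      have hb3 : b = u + b2 := by omega
      rw [hb3, mul_add]
      omega

end Pool.Agent.H34.PER.GA
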