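import Pool.Agent.H72.PER.Targets

open Module Filter

namespace Pool.Agent.H34.PER.WGT

open Pool.Agent.H72.HR
open Pool.Agent.H72.SBP (MvK)
open Pool.Agent.H72.PER

/-- the weighted half rank theorem from the two interval statements -/
theorem pf_WGT (h2 : T_ADD) (h4 : T_INT) (h5 : T_GA) (h6 : T_GB) : T_WGT := by
  intro K F _ _ _ n x hx l c p q N A hp hq hN
  have hI := h4 K F n Set.univ x hx
  -- a minimal pair
  let S : Set ℕ := {m | ∃ (V : Submodule K (Fin l → K)) (U : Submodule K (Fin c → K)),
    Into Set.univ A V U ∧ m = p * (l - finrank K V) + q * finrank K U}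
  have hne : S.Nonempty := by
    refine ⟨_, ⊥, ⊥, ?_, rfl⟩
    intro k _ y hy
    rw [Submodule.mem_bot] at hy ⊢
    rw [hy]
    exact Matrix.zero_vecMul _
  obtain ⟨V0, U0, hVU, hm⟩ := Nat.sInf_mem hne
  have hmin : ∀ (V : Submodule K (Fin l → K)) (U : Submodule K (Fin c → K)),
      Into Set.univ A V U → p * (l - finrank K V0) + q * finrank K U0 ≤
        p * (l - finrank K V) + q * finrank K U := by
    intro V U h
    rw [← hm]
    exact Nat.sInf_le ⟨V, U, h, rfl⟩
  have hV0l : finrank K V0 ≤ l := by
    have := Submodule.finrank_le V0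
    simpa using this
  have hU0c : finrank K U0 ≤ c := by
    have := Submodule.finrank_le U0
    simpa using this
  have hbot : Into Set.univ A (⊥ : Submodule K (Fin l → K)) (⊥ : Submodule K (Fin c → K)) := by
    intro k _ y hy
    rw [Submodule.mem_bot] at hy ⊢
    rw [hy]
    exact Matrix.zero_vecMul _
  have htop : Into Set.univ A (⊤ : Submodule K (Fin l → K)) (⊤ : Submodule K (Fin c → K)) :=
    fun _ _ _ _ => Submodule.mem_top
  have hA := h5 K F n x (finrank K V0 + finrank K U0) p q hp hq (hI _) l c A ⊥ V0 ⊥ U0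
    (finrank K V0) (finrank K U0) bot_le bot_le hbot hVU (by simp) (by simp) le_rfl
    (by
      intro V2 U2 _ hV2 _ hU2 h
      have h1 := hmin V2 U2 h
      have hv : finrank K V2 ≤ finrank K V0 := Submodule.finrank_mono hV2
      have hu : finrank K U2 ≤ finrank K U0 := Submodule.finrank_mono hU2
      obtain ⟨e, he⟩ := Nat.exists_eq_add_of_le hv
      obtain ⟨d, hd⟩ := Nat.exists_eq_add_of_le hu
      obtain ⟨f, hf⟩ := Nat.exists_eq_add_of_le hV0l
      have e1 : l - finrank K V0 = f := by omega
      have e2 : l - finrank K V2 = f + e := by omega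
      have e3 : finrank K U0 - finrank K U2 = d := by omega
      have e4 : finrank K V0 - finrank K V2 = e := by omega
      rw [e1, e2, hd, mul_add, mul_add] at h1
      rw [e3, e4]
      omega)
  have hB := h6 K F n x ((l - finrank K V0) + (c - finrank K U0)) p q hp hq (hI _) l c A V0 ⊤ U0 ⊤
    (l - finrank K V0) (c - finrank K U0) le_top le_top hVU htop
    (by rw [finrank_top, finrank_fin_fun]; omega) (by rw [finrank_top, finrank_fin_fun]; omega)
    le_rfl
    (by
      intro V2 U2 hV2 _ hU2 _ h
      have h1 := hmin V2 U2 h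
      have hv : finrank K V0 ≤ finrank K V2 := Submodule.finrank_mono hV2
      have hu : finrank K U0 ≤ finrank K U2 := Submodule.finrank_mono hU2
      have hV2l : finrank K V2 ≤ l := by
        have := Submodule.finrank_le V2
        simpa using this
      obtain ⟨e, he⟩ := Nat.exists_eq_add_of_le hv
      obtain ⟨d, hd⟩ := Nat.exists_eq_add_of_le hu
      obtain ⟨f, hf⟩ := Nat.exists_eq_add_of_le hV2l
      have e1 : l - finrank K V2 = f := by omega
      have e2 : l - finrank K V0 = f + e := by omega
      have e3 : finrank K U2 - finrank K U0 = d := by omega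
      have e4 : finrank K V2 - finrank K V0 = e := by omega
      rw [e1, e2, hd, mul_add, mul_add] at h1
      rw [e3, e4]
      omega)
  obtain ⟨hadd, hrank⟩ := h2 K F n l c x A
  have hC := hadd V0 ⊤ ⊥ U0 le_top bot_le hVU
  rw [hrank] at hC
  have hD := hN V0 U0 hVU
  rw [finrank_bot, mul_zero, add_zero] at hA
  have hE := Nat.mul_le_mul_left (p + q) hC
  rw [mul_add, mul_add] at hE
  omega

end Pool.Agent.H34.PER.WGT
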